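import Pool.Agent.Helper10.RC.Basic

open scoped ENNReal NNReal InnerProductSpace ComplexOrder
open Filter Topology

attribute [-instance] CStarMatrix.instAlgebra CStarMatrix.instModule CStarMatrix.instSMul
  CStarMatrix.instMulAction CStarMatrix.instDistribMulAction

noncomputable section
namespace RC
universe u

namespace H70

variable {H : Type u} [NormedAddCommGroup H] [InnerProductSpace ℂ H] [CompleteSpace H]

lemma inner_star (x : H →L[ℂ] H) (y z : H) : ⟪y, (star x) z⟫_ℂ = ⟪x y, z⟫_ℂ := by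
  rw [ContinuousLinearMap.star_eq_adjoint, ContinuousLinearMap.adjoint_inner_right]

lemma inner_star_mul (x : H →L[ℂ] H) (y : H) : ⟪y, (star x * x) y⟫_ℂ = ((‖x y‖ ^ 2 : ℝ) : ℂ) := by
  rw [mul_apply_eq_comp, inner_star, inner_self_eq_norm_sq_to_K]
  norm_cast

lemma inner_proj {p : H →L[ℂ] H} (hp : IsStarProjection p) (y : H) :
    ⟪y, p y⟫_ℂ = ((‖p y‖ ^ 2 : ℝ) : ℂ) := by
  rw [← inner_star_mul]
  congr 2
  rw [hp.isSelfAdjoint.star_eq, hp.isIdempotentElem.eq]

lemma tr_proj {p : H →L[ℂ] H} (hp : IsStarProjection p) (y : H) : tr y p = ‖p y‖ ^ 2 := by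
  unfold tr
  rw [inner_proj hp, Complex.ofReal_re]

lemma proj_comm {f p : H →L[ℂ] H} (hf : IsStarProjection f) (hp : IsStarProjection p)
    (h : f * p = p) : p * f = p := by
  have := congrArg star h
  rw [star_mul, hf.isSelfAdjoint.star_eq, hp.isSelfAdjoint.star_eq] at this
  exact this

lemma proj_sub {p g : H →L[ℂ] H} (hp : IsStarProjection p) (hg : IsStarProjection g)
    (h : p * g = g) : IsStarProjection (p - g) := by
  have h2 := proj_comm hp hg h
  refine ⟨?_, hp.isSelfAdjoint.sub hg.isSelfAdjoint⟩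
  change (p - g) * (p - g) = p - g
  rw [sub_mul, mul_sub, mul_sub, hp.isIdempotentElem.eq, hg.isIdempotentElem.eq, h, h2]
  simp

lemma halving {S : Set (H →L[ℂ] H)} (ξ : H) (hN : NoMin S) {f : H →L[ℂ] H}
    (hf : f ∈ S.centralizer) (hfp : IsStarProjection f) (hf0 : f ≠ 0) (k : ℕ) :
    ∃ p ∈ S.centralizer, IsStarProjection p ∧ f * p = p ∧ p ≠ 0 ∧ tr ξ p * 2 ^ k ≤ tr ξ f := by
  induction k with
  | zero => exact ⟨f, hf, hfp, hfp.isIdempotentElem.eq, hf0, by simp⟩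
  | succ k ih =>
    obtain ⟨p, hpS, hpp, hfpp, hp0, htr⟩ := ih
    obtain ⟨g, hgS, hgp, hpg, hg0, hgp'⟩ := hN p hpS hpp hp0
    have hfg : f * g = g := by rw [← hpg, ← mul_assoc, hfpp]
    have hsum : tr ξ g + tr ξ (p - g) = tr ξ p := by
      unfold tr
      rw [_root_.sub_apply, inner_sub_right, Complex.sub_re]
      ring
    rcases le_total (tr ξ g) (tr ξ (p - g)) with h | h
    · refine ⟨g, hgS, hgp, hfg, hg0, ?_⟩
      have h2 : tr ξ g * 2 ≤ tr ξ p := by linarith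
      calc tr ξ g * 2 ^ (k + 1) = (tr ξ g * 2) * 2 ^ k := by ring
        _ ≤ tr ξ p * 2 ^ k := by
          apply mul_le_mul_of_nonneg_right h2
          positivity
        _ ≤ _ := htr
    · refine ⟨p - g, ?_, proj_sub hpp hgp hpg, ?_, ?_, ?_⟩
      · intro m hm
        rw [mul_sub, sub_mul, hpS m hm, hgS m hm]
      · rw [mul_sub, hfpp, hfg]
      · intro h0
        exact hgp' (sub_eq_zero.1 h0).symm
      · have h2 : tr ξ (p - g) * 2 ≤ tr ξ p := by linarith
        calc tr ξ (p - g) * 2 ^ (k + 1) = (tr ξ (p - g) * 2) * 2 ^ k := by ring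
          _ ≤ tr ξ p * 2 ^ k := by
            apply mul_le_mul_of_nonneg_right h2
            positivity
          _ ≤ _ := htr

end H70

open H70 in
theorem noMinPP (h1 : MinP.{u}) (h2 : RepFVP.{u}) : NoMinPP.{u} := by
  intro A _ _ _ φ G _ _ α H _ _ _ π ρ ξ U hrep hact himp hN f hf hfp hf0
  by_contra hcon
  push Not at hcon
  obtain ⟨hFV, hπ⟩ := h2 A φ H π ρ ξ hrep
  set S : Set (H →L[ℂ] H) := Set.range ρ with hS
  set S₂ : Set (H →L[ℂ] H) := Set.range ρ ∪ Set.range U with hS₂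
  have hsub : ∀ x, x ∈ S₂.centralizer → x ∈ S.centralizer := fun x hx m hm =>
    hx m (Or.inl hm)
  have hUcomm : ∀ x, x ∈ S₂.centralizer → ∀ g, U g * x = x * U g := fun x hx g =>
    hx (U g) (Or.inr ⟨g, rfl⟩)
  have hmin := h1 H S₂ (by
    rintro x (hx | ⟨g, rfl⟩)
    · exact Or.inl (hFV.star x hx)
    · rw [himp.star]
      exact Or.inr ⟨g⁻¹, rfl⟩) f hf hfp (by
    intro g hg hgp hfg
    by_contra hne
    push Not at hne
    exact hne.2 (hcon g hg hgp hfg hne.1))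
  have hαα : ∀ g a, α g (α g⁻¹ a) = a := by
    intro g a
    rw [← hact, mul_inv_cancel]
    have h3 : ∀ b, α 1 (α 1 b) = α 1 b := fun b => by rw [← hact, one_mul]
    exact (α 1).injective (h3 a)
  have hξ1 : π 1 ξ = ξ := by rw [map_one]; rfl
  have hUξ : ∀ g, U g ξ = ξ := by
    intro g
    have := himp.app g 1
    rw [map_one (α g), hξ1] at this
    exact this
  -- conjugation of the right multiplications
  have hρ : ∀ g b, ρ b * U g = U g * ρ (α g⁻¹ b) := by
    intro g b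
    apply ContinuousLinearMap.coeFn_injective
    refine Continuous.ext_on hrep.dense (ContinuousLinearMap.continuous _)
      (ContinuousLinearMap.continuous _) ?_
    rintro _ ⟨a, rfl⟩
    simp only [mul_apply_eq_comp]
    rw [himp.app, hrep.right, hrep.right, himp.app, map_mul (α g), hαα]
  have hUU : ∀ g, U g * U g⁻¹ = 1 := fun g => by rw [← himp.mul, mul_inv_cancel, himp.one]
  have hUU' : ∀ g, U g⁻¹ * U g = 1 := fun g => by rw [← himp.mul, inv_mul_cancel, himp.one]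
  have hρ' : ∀ g b, U g⁻¹ * ρ b = ρ (α g⁻¹ b) * U g⁻¹ := by
    intro g b
    calc U g⁻¹ * ρ b = U g⁻¹ * (ρ b * U g) * U g⁻¹ := by
          rw [mul_assoc, mul_assoc, hUU, mul_one]
      _ = _ := by rw [hρ, ← mul_assoc, hUU', one_mul]
  have hconj : ∀ g, ∀ x ∈ S.centralizer, U g * x * U g⁻¹ ∈ S.centralizer := by
    rintro g x hx _ ⟨b, rfl⟩
    calc ρ b * (U g * x * U g⁻¹) = (ρ b * U g) * x * U g⁻¹ := by noncomm_ring
      _ = U g * (ρ (α g⁻¹ b) * x) * U g⁻¹ := by rw [hρ]; noncomm_ring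
      _ = U g * x * (ρ (α g⁻¹ b) * U g⁻¹) := by
          rw [hx _ ⟨α g⁻¹ b, rfl⟩]
          noncomm_ring
      _ = U g * x * U g⁻¹ * ρ b := by rw [← hρ']; noncomm_ring
  set T : (H →L[ℂ] H) → (H →L[ℂ] H) := fun p => ∑ g : G, U g * p * U g⁻¹ with hT
  have hTmem : ∀ p ∈ S.centralizer, T p ∈ S₂.centralizer := by
    rintro p hp m (hm | ⟨h, rfl⟩)
    · rw [hT]
      simp only
      rw [Finset.mul_sum, Finset.sum_mul]
      exact Finset.sum_congr rfl fun g _ => hconj g p hp m hm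
    · rw [hT]
      simp only
      rw [Finset.mul_sum, Finset.sum_mul]
      rw [← Equiv.sum_comp (Equiv.mulLeft h) (fun g => U g * p * U g⁻¹ * U h)]
      refine Finset.sum_congr rfl fun g _ => ?_
      simp only [Equiv.coe_mulLeft]
      rw [mul_inv_rev, himp.mul h g, himp.mul g⁻¹ h⁻¹]
      calc U h * (U g * p * U g⁻¹) = U h * U g * p * U g⁻¹ * (U h⁻¹ * U h) := by
            rw [hUU', mul_one]; noncomm_ring
        _ = _ := by noncomm_ring
  -- a small projection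
  set n := Fintype.card G with hn
  obtain ⟨p, hpS, hpp, hfpp, hp0, htr⟩ := halving ξ hN (hsub f hf) hfp hf0 n
  obtain ⟨c, hc⟩ := hmin (T p) (hTmem p hpS)
  have hpf := proj_comm hfp hpp hfpp
  have hTc : T p = c • f := by
    rw [← hc, hT]
    simp only
    rw [Finset.mul_sum, Finset.sum_mul]
    refine Finset.sum_congr rfl fun g _ => ?_
    symm
    calc f * (U g * p * U g⁻¹) * f = (f * U g) * p * (U g⁻¹ * f) := by noncomm_ring
      _ = U g * (f * p * f) * U g⁻¹ := by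
          rw [← hUcomm f hf g, hUcomm f hf g⁻¹]; noncomm_ring
      _ = U g * p * U g⁻¹ := by rw [hfpp, hpf]
  have hsum : ∀ (F : G → (H →L[ℂ] H)) (x y : H),
      ⟪x, (∑ g, F g) y⟫_ℂ = ∑ g, ⟪x, F g y⟫_ℂ := by
    intro F x y
    rw [_root_.sum_apply, inner_sum]
  have hinner : ∀ g, ⟪ξ, (U g * p * U g⁻¹) ξ⟫_ℂ = ((‖p ξ‖ ^ 2 : ℝ) : ℂ) := by
    intro g
    rw [mul_apply_eq_comp, mul_apply_eq_comp, hUξ]
    have : U g = star (U g⁻¹) := by rw [himp.star, inv_inv]
    rw [this, inner_star, hUξ, inner_proj hpp]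
  have hE1 : ((n : ℂ)) * ((‖p ξ‖ ^ 2 : ℝ) : ℂ) = c * ((‖f ξ‖ ^ 2 : ℝ) : ℂ) := by
    have e1 : ⟪ξ, (T p) ξ⟫_ℂ = (n : ℂ) * ((‖p ξ‖ ^ 2 : ℝ) : ℂ) := by
      rw [hT]
      simp only
      rw [hsum]
      rw [Finset.sum_congr rfl fun g _ => hinner g, Finset.sum_const, Finset.card_univ,
        nsmul_eq_mul]
    have e2 : ⟪ξ, (T p) ξ⟫_ℂ = c * ((‖f ξ‖ ^ 2 : ℝ) : ℂ) := by
      rw [hTc, _root_.smul_apply, inner_smul_right, inner_proj hfp]
    rw [← e1, e2]
  have hE2 : ‖p ξ‖ ^ 2 ≤ c.re * ‖p ξ‖ ^ 2 := by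
    have e1 : p * T p * p = c • p := by
      rw [hTc, mul_smul_comm, smul_mul_assoc, hpf, hpp.isIdempotentElem.eq]
    have e2 : p * T p * p = ∑ g : G, star (p * U g⁻¹ * p) * (p * U g⁻¹ * p) := by
      rw [hT]
      simp only
      rw [Finset.mul_sum, Finset.sum_mul]
      refine Finset.sum_congr rfl fun g _ => ?_
      rw [star_mul, star_mul, himp.star, inv_inv, hpp.isSelfAdjoint.star_eq]
      calc p * (U g * p * U g⁻¹) * p = p * (U g * (p * p)) * U g⁻¹ * p := by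
            rw [hpp.isIdempotentElem.eq]; noncomm_ring
        _ = _ := by noncomm_ring
    have e3 : ⟪ξ, (p * T p * p) ξ⟫_ℂ = c * ((‖p ξ‖ ^ 2 : ℝ) : ℂ) := by
      rw [e1, _root_.smul_apply, inner_smul_right, inner_proj hpp]
    rw [e2, hsum] at e3
    simp only [inner_star_mul] at e3
    rw [← Complex.ofReal_sum] at e3
    have e4 := congrArg Complex.re e3
    rw [Complex.ofReal_re, Complex.re_mul_ofReal] at e4
    rw [← e4]
    have e5 : ‖p ξ‖ ^ 2 = ‖(p * U (1 : G)⁻¹ * p) ξ‖ ^ 2 := by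
      rw [inv_one, himp.one, mul_one, hpp.isIdempotentElem.eq]
    rw [e5]
    exact Finset.single_le_sum (f := fun g : G => ‖(p * U g⁻¹ * p) ξ‖ ^ 2)
      (fun g _ => by positivity) (Finset.mem_univ 1)
  have hpξ : 0 < ‖p ξ‖ ^ 2 := by
    have : p ξ ≠ 0 := fun h => hp0 (hFV.sep p hpS h)
    positivity
  have hfξ : 0 < ‖f ξ‖ ^ 2 := by
    have : f ξ ≠ 0 := fun h => hf0 (hFV.sep f (hsub f hf) h)
    positivity
  have hc1 : 1 ≤ c.re := by
    by_contra h
    push Not at h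
    have := mul_lt_mul_of_pos_right h hpξ
    linarith
  have hE3 : (n : ℝ) * ‖p ξ‖ ^ 2 = c.re * ‖f ξ‖ ^ 2 := by
    have := congrArg Complex.re hE1
    rw [Complex.re_mul_ofReal, Complex.re_mul_ofReal, Complex.natCast_re] at this
    exact this
  rw [tr_proj hpp, tr_proj hfp] at htr
  have h2n : (n : ℝ) < 2 ^ n := by exact_mod_cast Nat.lt_two_pow_self
  nlinarith [mul_lt_mul_of_pos_left h2n hpξ, mul_le_mul_of_nonneg_right hc1 hfξ.le]

end RC
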