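import Pool.Agent.Helper51.Lang.FTA

/-!
# Project TW, part RC: the ordering of a real closed field

`exists_order`: a real closed field carries a (unique) field ordering.  Typical use:
`obtain ⟨_, _⟩ := exists_order R` gives instances `LinearOrder R`, `IsStrictOrderedRing R`; then
`IsRealClosed.nonneg_iff_isSquare : 0 ≤ x ↔ IsSquare x`.
Reusable from `Pool.Agent.Helper51.Lang.FTA`: `irr2 : Helper70.Lang.Irr2` (irreducible polynomials over
a real closed field have degree at most two), `fta`, `add_sq_eq_zero`, `sum_sq_eq_sq`.
-/

namespace Pool.Agent.Helper70.RC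

universe u v

open Pool.Agent.Helper51.Lang.FTA

/-- A real closed field has a field ordering. -/
theorem exists_order (R : Type u) [Field R] [IsRealClosed R] :
    ∃ _ : LinearOrder R, IsStrictOrderedRing R := by
  classical
  let C : RingCone R :=
    { carrier := {x | IsSquare x}
      mul_mem' := fun {a b} ha hb => ha.mul hb
      one_mem' := IsSquare.one
      add_mem' := by
        rintro a b ⟨c, rfl⟩ ⟨d, rfl⟩
        obtain ⟨e, he⟩ := sum_sq_eq_sq c d
        exact ⟨e, by rw [← pow_two, ← pow_two, he, pow_two]⟩
      zero_mem' := IsSquare.zero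
      eq_zero_of_mem_of_neg_mem' := by
        rintro a ⟨c, rfl⟩ ⟨d, hd⟩
        have h : c ^ 2 + d ^ 2 = 0 := by rw [pow_two, pow_two, ← hd]; ring
        rw [(add_sq_eq_zero h).1, mul_zero] }
  have hC : ∀ x, x ∈ C ↔ IsSquare x := fun x => Iff.rfl
  haveI : HasMemOrNegMem C := ⟨fun x => by
    rw [hC, hC]
    exact IsRealClosed.isSquare_or_isSquare_neg x⟩
  letI o : LinearOrder R := LinearOrder.mkOfAddGroupCone C
  haveI h1 : IsOrderedRing R := IsOrderedRing.mkOfCone C
  exact ⟨o, h1.toIsStrictOrderedRing⟩

/-- Real closed fields have characteristic zero. -/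
theorem charZero (R : Type u) [Field R] [IsRealClosed R] : CharZero R := inferInstance

end Pool.Agent.Helper70.RC
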