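import Pool.Agent.Helper70.RC.Defs

/-!
# Project TW, part RC: goals

A transfer theorem for real closed fields: a `∀ ∃` statement about systems of integer polynomial
equations that holds over `ℝ` holds over every real closed field.

Every goal is a proposition `def NAME : Prop`; a packet `NAME` asks for a theorem
`(hypotheses stated in the packet) → Pool.Agent.Helper70.RC.NAME`.  Every docstring contains a
complete proof.  Useful: `exists_order` (RC/Base.lean), `IsRealClosed.nonneg_iff_isSquare`,
`Pool.Agent.Helper51.Lang.FTA.irr2`, `Pool.Agent.Helper51.Lang.FTA.exists_ab`, `fta`.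
-/

namespace Pool.Agent.Helper70.RC

open Polynomial

universe u v

/-- **RCALG**.  The relative algebraic closure of a field in a real closed field is real closed.

PROOF.  `E = algebraicClosure F M`.  A relation `1 + s = 0` with `s` a sum of squares in `E` would
give one in `M` (`IsSumSq.map` or induction), so `E` is semireal.  For `x ∈ E`, `x` or `-x` is
`y * y` with `y ∈ M`; `y * y` is algebraic over `F` so `y` is (`IsAlgebraic.of_pow`), so `y ∈ E`.  If
`f ∈ E[X]` has odd degree then so has its image in `M[X]`, which has a root `y ∈ M`; `y` is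
algebraic over `E` (`f ≠ 0`) and `E` is algebraic over `F`, so `y` is algebraic over `F` and `y ∈ E`. -/
def RCALG : Prop :=
  ∀ (F : Type v) (M : Type u) [Field F] [Field M] [IsRealClosed M] [Algebra F M],
    IsRealClosed (algebraicClosure F M)

/-- **RCBOT**.  A real closed field is algebraically closed in every real closed extension.

PROOF.  Let `p` be the minimal polynomial of `x`; it has degree `≤ 2` by `irr2`.  If the degree is
`1` we are done.  If `p = X² + β X + γ`, then `δ = β² - 4 γ` is not a square in `R` (otherwise `p`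
has a root in `R`), so `-δ = s * s` with `s ∈ R`, `s ≠ 0`, and in `M`,
`(2 x + β)² = δ = - s²`, so `1 + ((2 x + β) / s)² = 0`, impossible in `M`. -/
def RCBOT : Prop :=
  ∀ (R : Type v) (M : Type u) [Field R] [IsRealClosed R] [Field M] [IsRealClosed M] [Algebra R M]
    (x : M), IsAlgebraic R x → ∃ a : R, algebraMap R M a = x

/-- **SIGN**.  Signs of finitely many polynomials at an element `t ∉ R` of a real closed extension
are realised at an element of `R`.

PROOF.  Take orderings of `R` and `M` (`exists_order`), so `0 ≤ x ↔ IsSquare x` in both; `φ = algebraMap`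
is strictly monotone (it maps squares to squares and is injective).  Let `T ⊂ R` be the finite set of
roots in `R` of the polynomials of `S`.  For `c ∈ T` either `φ c < t` or `t < φ c`; elements of the
first kind are smaller than elements of the second kind, so by `Order.exists_between_finsets` there
is `a ∈ R` with: `c < a` if `φ c < t`, and `a < c` if `t < φ c`.
Claim: if `h ≠ 0` is a polynomial all of whose roots are in `T` then `0 < h(a)` and `0 < h(t)`, or
`h(a) < 0` and `h(t) < 0`.  Induction over the factorisation into irreducibles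
(`WfDvdMonoid.induction_on_irreducible`).  Nonzero constants: clear.  A factor of degree one
`λ (X - c)`: `c ∈ T` and `a - c`, `t - φ c` have the same sign.  A factor `q` of degree two
(the only other case, by `irr2`), `q = λ (X² + β X + γ)`: as `q` has no root in `R`,
`4 γ - β²` is not `- (square)`, so it is `> 0`, and `4 (x² + β x + γ) = (2 x + β)² + (4 γ - β²) > 0`
at `x = a` and at `x = t`.  Products: multiply the signs.
So `h(a) ≠ 0` and (`IsSquare (h a) ↔ 0 < h a ↔ 0 < h t ↔ IsSquare (h t)`). -/
def SIGN : Prop :=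
  ∀ (R : Type v) (M : Type u) [Field R] [IsRealClosed R] [Field M] [IsRealClosed M] [Algebra R M]
    (t : M), (∀ a : R, algebraMap R M a ≠ t) → ∀ S : Finset R[X], (∀ h ∈ S, h ≠ 0) →
    ∃ a : R, ∀ h ∈ S, h.eval a ≠ 0 ∧ (IsSquare (h.eval a) ↔ IsSquare (aeval t h))

/-- **HTR**.  The quadratic form of the Hermite matrix is `∑_ξ u(ξ)²` when `f` has `n` distinct roots.

PROOF.  Let `C = comp n f`, mapped to `L`, and `V` the Vandermonde matrix `V i j = ξ_i^j`
(`Matrix.vandermonde ξ`), which is invertible because `ξ` is injective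
(`Matrix.det_vandermonde_ne_zero_iff`).  Then `V * C = D * V` with `D = diagonal ξ`: the entry
`(i, j)` of `V C` is `∑_l ξ_i^l C_{l j}`, which is `ξ_i^(j+1)` if `j + 1 < n`, and
`- ∑_l f_l ξ_i^l = ξ_i^n` if `j + 1 = n`, because `f(ξ_i) = 0` and `f` is monic of degree `n`.  Hence
`V C^m = D^m V` and `tr C^m = tr (V C^m V⁻¹) = tr D^m = ∑_i ξ_i^m`.  So
`∑_{i,j} u_i u_j tr C^(i+j) = ∑_ξ ∑_{i,j} u_i u_j ξ^(i+j) = ∑_ξ (∑_j u_j ξ^j)²`.
(`comp_map` commutes `comp` with `algebraMap`; the case `n = 0` is trivial.) -/
def HTR : Prop :=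
  ∀ (k : Type u) (L : Type v) [Field k] [Field L] [Algebra k L] (n : ℕ) (f : k[X]),
    f.Monic → f.natDegree = n → ∀ ξ : Fin n → L, Function.Injective ξ →
    (∀ i, aeval (ξ i) f = 0) → ∀ u : Fin n → k,
      algebraMap k L (∑ i, ∑ j, u i * herm n f i j * u j) =
        ∑ i, (∑ j, algebraMap k L (u j) * ξ i ^ (j : ℕ)) ^ 2

/-- **HSIG** (may use `HTR`).  For a separable monic polynomial of degree `n` over a real closed
field `k` with `r` roots in `k`, the Hermite form is `∑ A_i(u)² + 2 ∑ (B_j(u)² - C_j(u)²)` with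
`r + 2 s = n` and linear forms `A_i` (`i < r`), `B_j, C_j` (`j < s`) without common zero.

PROOF.  Let `L = AlgebraicClosure k`, `J ∈ L` with `J² = -1`.  By `FTA.exists_ab` every `x ∈ L` is
`a + b J` with `a, b ∈ k`, unique since `J ∉ k`; the map `σ (a + b J) = a - b J` is a ring automorphism
of `L` fixing `k`.  `f` is separable so it has exactly `n` distinct roots in `L`
(`Polynomial.card_rootSet_eq_natDegree` or `nodup_roots`); let `T` be this finite set.  `σ` maps `T`
to `T`.  Choose an ordering of `k` (`exists_order`).  `T` is the disjoint union of `T₀` (roots with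
`b = 0`, i.e. the images of the roots of `f` in `k`), `T₊` (`b > 0`) and `T₋ = σ(T₊)` (`b < 0`).  Put
`r = #T₀`, `s = #T₊`, so `r + 2 s = n`.  Enumerate `T` by an injective `ξ : Fin n → L`.  For
`u ∈ k^n` put `u(x) = ∑_j u_j x^j`.  By HTR the form is `∑_{x ∈ T} u(x)²`.  For `x ∈ T₀`, `u(x) ∈ k`: this
is `A`.  For `x ∈ T₊` write `u(x) = B + C J`; then `u(σ x) = B - C J` and
`u(x)² + u(σ x)² = 2 (B² - C²)`.  If all `A, B, C` vanish at `u` then the polynomial `∑ u_j X^j` of
degree `< n` has the `n` distinct roots of `T`, so `u = 0`. -/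
def HSIG : Prop :=
  ∀ (k : Type u) [Field k] [IsRealClosed k] (n : ℕ) (f : k[X]), f.Monic → f.natDegree = n →
    f.Separable → ∃ (r s : ℕ) (A : (Fin n → k) →ₗ[k] (Fin r → k))
      (B C : (Fin n → k) →ₗ[k] (Fin s → k)),
      r + 2 * s = n ∧ ((∃ x, f.IsRoot x) ↔ 0 < r) ∧
      (∀ u, A u = 0 → B u = 0 → C u = 0 → u = 0) ∧
      ∀ u : Fin n → k, ∑ i, ∑ j, u i * herm n f i j * u j =
        ∑ i, (A u i) ^ 2 + 2 * ∑ i, ((B u i) ^ 2 - (C u i) ^ 2)

/-- **HINE** (inertia; pure linear algebra over an ordered field).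

PROOF.  Take an ordering (`exists_order`); `d i ≠ 0 ∧ IsSquare (d i)` means `0 < d i`.  Let
`q(u) = ∑_{i,j} u_i H_{ij} u_j`, so `q (P y) = ∑_i d_i y_i²` (`P` invertible).  Let `N = npos d`,
`V₊ = {P y : y i = 0 for i not positive}` (dimension `N`, `q > 0` on nonzero vectors),
`V₋ = {P y : y i = 0 for i positive}` (dimension `n - N`, `q ≤ 0`).
(→) Assume `r = 0`, so `n = 2 s`.  `W = {u : B u = C u}` has dimension `≥ n - s = s` (kernel of
`B - C`), and `q = 0` on `W` (`A u = 0` as `Fin 0 → k` is trivial).  `W ⊓ V₊ = ⊥`, so `s + N ≤ n` and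
`N ≤ s`, i.e. `2 N ≤ n`.
(←) Assume `r > 0`.  `U = {u : C u = 0}` has dimension `≥ n - s` and `q(u) = ∑ A_i² + 2 ∑ B_j² > 0` for
`0 ≠ u ∈ U`.  So `U ⊓ V₋ = ⊥`, `(n - s) + (n - N) ≤ n`, `N ≥ n - s = r + s`, `2 N ≥ 2 r + 2 s > n`.
(Dimension formula: `Submodule.finrank_add_finrank_le_of_disjoint`;
`LinearMap.finrank_range_add_finrank_ker`.) -/
def HINE : Prop :=
  ∀ (k : Type u) [Field k] [IsRealClosed k] (n r s : ℕ) (H P : Matrix (Fin n) (Fin n) k)
    (d : Fin n → k) (A : (Fin n → k) →ₗ[k] (Fin r → k)) (B C : (Fin n → k) →ₗ[k] (Fin s → k)),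
    P.det ≠ 0 → P.transpose * H * P = Matrix.diagonal d → r + 2 * s = n →
    (∀ u, A u = 0 → B u = 0 → C u = 0 → u = 0) →
    (∀ u : Fin n → k, ∑ i, ∑ j, u i * H i j * u j =
        ∑ i, (A u i) ^ 2 + 2 * ∑ i, ((B u i) ^ 2 - (C u i) ^ 2)) →
    (n < 2 * npos d ↔ 0 < r)

/-- **DIAG**.  Symmetric matrices over a domain can be diagonalised by a matrix with nonzero
determinant.

PROOF.  Over the fraction field `K` (of characteristic not two) every symmetric bilinear form has an
orthogonal basis (`LinearMap.BilinForm.exists_orthogonal_basis`, Mathlib: for a symmetric form with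
`Invertible (2 : K)` there is a basis `v` with `B.iIsOrtho v`), i.e. there is an invertible `P₀` over
`K` with `P₀ᵀ H P₀` diagonal.  Multiply `P₀` by a common denominator `q ≠ 0` of its entries
(`IsLocalization.exist_integer_multiples_of_finset` or `IsLocalization.integerNormalization`): `P = q P₀`
has entries in `A`, `det P = q^n det P₀ ≠ 0` and `Pᵀ H P` is diagonal.
ALTERNATIVE: direct induction on `n` by completing squares. -/
def DIAG : Prop :=
  ∀ (A : Type u) [CommRing A] [IsDomain A], (2 : A) ≠ 0 → ∀ (n : ℕ) (H : Matrix (Fin n) (Fin n) A),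
    H.transpose = H → ∃ (P : Matrix (Fin n) (Fin n) A) (d : Fin n → A),
      P.det ≠ 0 ∧ P.transpose * H * P = Matrix.diagonal d

/-- **LEMS** (prove `SIGN.{u,v} → HSIG.{u} → HSIG.{v} → HINE.{u} → HINE.{v} → DIAG.{v} → LEMS.{u,v}`).
Specialisation of a separable monic polynomial `f ∈ R[X][Y]` with a root over `t`.

PROOF.  `n = f.natDegree`, `H = herm n f`, a symmetric matrix over `R[X]` (`i + j = j + i`).  By DIAG
(`A = R[X]`) there are `P`, `d` over `R[X]` with `det P ≠ 0`, `Pᵀ H P = diagonal d`.  Apply SIGN to the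
set of the nonzero ones among `c, g, det P, d_1, …, d_n` (`t ∉ R` since `t` is transcendental): `a ∈ R`.
For a ring homomorphism `φ` from `R[X]` to a real closed field `k` (`φ = evalRingHom a`, `k = R`; or
`φ = aeval t`, `k = M`) with `φ c ≠ 0`, `φ (det P) ≠ 0`: `f_φ = f.map φ` is monic of degree `n`,
separable (`p_φ f_φ + w_φ f_φ' = φ c` is a unit), `herm n f_φ = H.map φ` (`herm_map`),
`(P.map φ)ᵀ (H.map φ) (P.map φ) = diagonal (φ ∘ d)`.  By HSIG and HINE: `f_φ` has a root in `k` iff
`n < 2 npos (φ ∘ d)`.  For `φ = aeval t` it has the root `y`.  `npos` is the same for both `φ`: if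
`d_i = 0` then both values are `0`; if `d_i ≠ 0` then `d_i(a) ≠ 0`, `d_i(t) ≠ 0` (`t` transcendental) and
they are squares simultaneously.  So `f_φ` for `φ = evalRingHom a` has a root `b ∈ R`. -/
def LEMS : Prop :=
  ∀ (R : Type v) (M : Type u) [Field R] [IsRealClosed R] [Field M] [IsRealClosed M] [Algebra R M]
    (t y : M), Transcendental R t → ∀ (f p w : R[X][X]) (c g : R[X]), f.Monic → c ≠ 0 → g ≠ 0 →
    p * f + w * derivative f = C c → aevalAeval t y f = 0 →
    ∃ a b : R, g.eval a ≠ 0 ∧ evalEval a b f = 0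

/-- **PRIM**.  Presentation of finitely many elements algebraic over `R(t)` by one integral element.

PROOF.  Let `k = R(t) ⊆ M` and `E = k(y_1, …, y_n)`, a finite extension of the field `k` of
characteristic zero; let `θ` be a primitive element (`Field.exists_primitive_element`), so
`E = k(θ)`.  View `M` as an algebra over `A = R[X]` through `aeval t : R[X] → M`, which is injective.
`θ` is algebraic over `A` (elements of `k` are quotients of elements `aeval t p`,
`IntermediateField.mem_adjoin_simple_iff`), so there is `d ∈ A`, `d ≠ 0` with `η = d(t) θ` integral over `A`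
(`exists_integral_multiple`/`IsAlgebraic.exists_integral_multiple`); still `E = k(η)`.  Let
`f = minpoly A η ∈ A[Y] = R[X][X]`, monic with `aevalAeval t η f = 0` (`aevalAeval t η` is `aeval η` for
this `A`-algebra structure).  `A` is integrally closed, so `aevalAeval t η Q = 0` implies `f ∣ Q`
(`minpoly.isIntegrallyClosed_dvd`).  Over `Frac A` the polynomial `f` is irreducible
(`minpoly.isIntegrallyClosed_eq_field_fractions`, or `Monic.irreducible_iff_irreducible_map_fraction_map`),
hence separable (characteristic zero), so `p₀ f + w₀ f' = 1` over `Frac A`; multiply by a common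
denominator `c ≠ 0` of the coefficients.  Finally `y_j ∈ k(η) = k[η]`, so `y_j` is a polynomial in `η`
with coefficients quotients of elements of `A`; let `g` be a common denominator of all coefficients of
all `y_j`: `y_j g(t) = aevalAeval t η (h_j)`. -/
def PRIM : Prop :=
  ∀ (R : Type v) (M : Type u) [Field R] [CharZero R] [Field M] [Algebra R M] (t : M),
    Transcendental R t → ∀ (n : ℕ) (y : Fin n → M),
    (∀ j, IsAlgebraic (IntermediateField.adjoin R ({t} : Set M)) (y j)) →
    ∃ (η : M) (f p w : R[X][X]) (c g : R[X]) (h : Fin n → R[X][X]), f.Monic ∧ c ≠ 0 ∧ g ≠ 0 ∧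
      p * f + w * derivative f = C c ∧ aevalAeval t η f = 0 ∧
      (∀ j, aevalAeval t η (h j) = y j * aeval t g) ∧
      ∀ Q : R[X][X], aevalAeval t η Q = 0 → f ∣ Q

/-- **ECA** (prove `LEMS.{u,v} → PRIM.{u,v} → ECA.{u,v}`).  Existential closedness for one
transcendental and several algebraic elements.

PROOF.  Take the data of PRIM and the point `(a, b)` of LEMS for `f, g` (and `y = η`): `g(a) ≠ 0`,
`f(a, b) = 0`.  Put `b_j = h_j(a, b) / g(a)`.  Let `P` be a polynomial over `R` with `P(t, y) = 0`.
Let `B = AdjoinRoot f` (over `R[X]`) and `B_g = Localization.Away (g in B)`.  The homomorphism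
`φ : B → M`, `X ↦ t`, root `↦ η`, is injective (kernel property of PRIM), and `ψ : B → R`, `X ↦ a`,
root `↦ b` is well defined.  As `g(t) ≠ 0` (transcendental) and `g(a) ≠ 0` they extend to `B_g`, `φ_g`
injective.  Let `z_j = h_j / g ∈ B_g`; `φ_g (P(X, z)) = P(t, y) = 0`, so `P(X, z) = 0` and
`P(a, b_·) = ψ_g (P (X, z)) = 0`.
ALTERNATIVE without localisation: for `N ≥ totalDegree P` there is `Q ∈ R[X][X]` with
`Q = g^N P(X, h / g)` (sum over the monomials of `P`); `Q(t, η) = g(t)^N P(t, y) = 0`, so `f ∣ Q`, so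
`0 = Q(a, b) = g(a)^N P(a, b_·)`. -/
def ECA : Prop :=
  ∀ (R : Type v) (M : Type u) [Field R] [IsRealClosed R] [Field M] [IsRealClosed M] [Algebra R M]
    (t : M), Transcendental R t → ∀ (n : ℕ) (y : Fin n → M),
    (∀ j, IsAlgebraic (IntermediateField.adjoin R ({t} : Set M)) (y j)) →
    ∃ (a : R) (b : Fin n → R), ∀ P : MvPolynomial (Fin (n + 1)) R,
      MvPolynomial.aeval (Fin.cons t y : Fin (n + 1) → M) P = 0 →
      MvPolynomial.eval (Fin.cons a b : Fin (n + 1) → R) P = 0

/-- **EC** (prove `RCALG.{u,u} → RCBOT.{u,u} → ECA.{u,u} → EC.{u}`).  A real closed field is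
existentially closed in every real closed extension.

PROOF.  Induction on `n`, for all pairs `(R, M)`.  `n = 0`: `P` is a constant, clear
(`MvPolynomial.isEmptyRingEquiv`, or: `aeval x P = algebraMap (eval a P)` when `x = algebraMap ∘ a`).
`n + 1`: `t = x 0`.
Case 1: `t` is algebraic over `R`.  By RCBOT `t = algebraMap c`.  Apply the induction hypothesis to
`(R, M)` and `Fin.tail x`: `a'`; take `a = Fin.cons c a'`: if `P(x) = 0` then the polynomial
`P(c, X_1, …, X_n)` vanishes at `Fin.tail x`, so at `a'`.
Case 2: `t` is transcendental over `R`.  Let `M₁ = algebraicClosure (adjoin R {t}) M`, real closed by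
RCALG; `M` is a real closed extension of `M₁`.  By the induction hypothesis for `(M₁, M)` and
`Fin.tail x` there is `y : Fin n → M₁` such that every polynomial over `M₁` vanishing at `Fin.tail x`
vanishes at `y`.  In particular, if `P` is a polynomial over `R` with `P (t, Fin.tail x) = 0`, then
`P (t, y) = 0` (view `P(t, X_1, …, X_n)` as a polynomial over `M₁`, which contains `t`).  Apply ECA to
`(R, M)`, `t` and the elements `y j` (algebraic over `adjoin R {t}`). -/
def EC : Prop :=
  ∀ (n : ℕ) (R M : Type u) [Field R] [IsRealClosed R] [Field M] [IsRealClosed M] [Algebra R M]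
    (x : Fin n → M), ∃ a : Fin n → R, ∀ P : MvPolynomial (Fin n) R,
      MvPolynomial.aeval x P = 0 → MvPolynomial.eval a P = 0

/-- **RCREAL**.  The field of algebraic elements of a real closed field embeds into `ℝ`.

PROOF.  Take an ordering of `R` (`exists_order`); the subfield `E = algebraicClosure ℚ R` inherits
it.  `E` is archimedean: let `x ∈ E`, `x` is a root of a monic polynomial
`X^n + q_{n-1} X^{n-1} + ⋯ + q_0` over `ℚ`, `n ≥ 1`; if `|x| > B := 1 + ∑ |q_i|` then
`|x|^n ≤ ∑ |q_i| |x|^i ≤ (∑ |q_i|) |x|^{n-1} < |x|^n`, a contradiction.  So `x ≤ B ≤` a natural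
number.  An archimedean linearly ordered field has an (ordered) ring homomorphism to `ℝ`
(`LinearOrderedField.inducedOrderRingHom E ℝ`, Mathlib.Algebra.Order.CompleteField). -/
def RCREAL : Prop :=
  ∀ (R : Type u) [Field R] [IsRealClosed R], Nonempty (algebraicClosure ℚ R →+* ℝ)

/-- **ULTRA** (prove `RCALG.{u,0} → RCREAL.{u} → EC.{u} → ULTRA.{u}`).  Every real closed field embeds
into an ultrapower of `ℝ`.

PROOF.  Let `R₀ = algebraicClosure ℚ R` (real closed by RCALG) and `ψ : R₀ → ℝ` (RCREAL).  Let
`I = Finset R` and `U` an ultrafilter on `I` with `U ≤ Filter.atTop` (`Ultrafilter.of`); so for every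
finite `T ⊂ R`, `T ⊆ S` for `U`-almost all `S`.  For `S ∈ I` enumerate `S` (`S.equivFin`) and apply
EC to `(R₀, R)`: there is `θ_S : R → R₀` (zero outside `S`) such that for every polynomial `P` over `R₀`
in the variables `S`, `P (S) = 0` implies `P (θ_S) = 0`.  So `θ_S 1 = 1` if `1 ∈ S`,
`θ_S (x + y) = θ_S x + θ_S y` and `θ_S (x y) = θ_S x θ_S y` if all the elements involved are in `S` (use
the polynomials `X_1 - 1`, `X_x + X_y - X_{x+y}`, `X_x X_y - X_{xy}`).  Then
`x ↦ germ of (S ↦ ψ (θ_S x))` is a ring homomorphism `R → Germ U ℝ`. -/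
def ULTRA : Prop :=
  ∀ (R : Type u) [Field R] [IsRealClosed R], ∃ (I : Type u) (U : Ultrafilter I),
    Nonempty (R →+* (U : Filter I).Germ ℝ)

/-- **GERM**.  Ultrapowers of `ℝ` are real closed.

PROOF.  `(U : Filter I).Germ ℝ` is a linearly ordered field (`Filter.Germ.instLinearOrder`,
`instIsStrictOrderedRing` in Mathlib.Order.Filter.FilterProduct).  By
`IsRealClosed.of_linearOrderedField` it remains to see: nonnegative germs are squares (germ of the
pointwise square root), and odd degree polynomials have roots: let `F` be a polynomial over the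
germs with `natDegree = d` odd; choose representatives `c_j : I → ℝ` of its coefficients, `j ≤ d`; the
leading one is nonzero almost everywhere (a nonzero germ with respect to an ultrafilter); where it is
nonzero the real polynomial `∑_{j ≤ d} c_j(i) X^j` has odd degree `d` and so a real root `x(i)`
(intermediate value theorem; Mathlib: `Polynomial.tendsto_atTop_iff_leadingCoeff_nonneg`,
`tendsto_atBot…`, or `Real` odd degree roots).  The germ of `x` is a root of `F`, because
`∑_{j ≤ d} c_j x^j = 0` almost everywhere.  (`U` is `NeBot`.) -/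
def GERM : Prop :=
  ∀ (I : Type u) (U : Ultrafilter I), IsRealClosed ((U : Filter I).Germ ℝ)

/-- **TT** (prove `EC.{u} → ULTRA.{u} → GERM.{u} → TT.{u}`).  The transfer theorem.

PROOF.  By ULTRA take `φ : R →+* G`, `G = Germ U ℝ`, real closed by GERM; make `G` an `R`-algebra by
`φ.toAlgebra`.  Choose representatives `c_s : I → ℝ` of the germs `φ (c s)`, `s ∈ A`.  For every
`i ∈ I` the hypothesis gives `x_i : B → ℝ` with `P_l (c(i), x_i) = 0`; let `X : B → G`, `X s` the germ
of `i ↦ x_i s`.  Then `P_l (φ ∘ c, X) = 0` in `G` (evaluate pointwise: the map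
`(I → ℝ) → G` is a ring homomorphism, `Filter.Germ.coeRingHom`).  Enumerate `B` (`Fintype.equivFin`)
and apply EC to `(R, G)` and `X`: there is `x : B → R` such that polynomials over `R` vanishing at `X`
vanish at `x`; apply this to the polynomials `P_l (c, ·)` over `R`. -/
def TT : Prop :=
  ∀ (A B Λ : Type) [Fintype A] [Fintype B] [Fintype Λ] (P : Λ → MvPolynomial (A ⊕ B) ℤ),
    (∀ c : A → ℝ, ∃ x : B → ℝ, ∀ l, MvPolynomial.aeval (Sum.elim c x) (P l) = 0) →
    ∀ (R : Type u) [Field R] [IsRealClosed R] (c : A → R),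
      ∃ x : B → R, ∀ l, MvPolynomial.aeval (Sum.elim c x) (P l) = 0

end Pool.Agent.Helper70.RC
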