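import Pool.Agent.Helper70.RC.Base

/-!
# Project TW, part RC: definitions
-/

namespace Pool.Agent.Helper70.RC

open Polynomial

universe u v

/-- The companion matrix of a (monic) polynomial of degree `n`: the matrix of multiplication by
`X` on the basis `1, X, …, X^(n-1)` of `A[X]/(f)`. -/
def comp {A : Type u} [CommRing A] (n : ℕ) (f : A[X]) : Matrix (Fin n) (Fin n) A :=
  Matrix.of fun i j => if (j : ℕ) + 1 = n then - f.coeff i else if (i : ℕ) = j + 1 then 1 else 0

/-- The Hermite matrix `tr (C^(i+j))` where `C` is the companion matrix. -/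
noncomputable def herm {A : Type u} [CommRing A] (n : ℕ) (f : A[X]) : Matrix (Fin n) (Fin n) A :=
  Matrix.of fun i j => (comp n f ^ ((i : ℕ) + (j : ℕ))).trace

/-- The companion matrix commutes with ring homomorphisms. -/
theorem comp_map {A : Type u} {B : Type v} [CommRing A] [CommRing B] (φ : A →+* B) (n : ℕ)
    (f : A[X]) : comp n (f.map φ) = (comp n f).map φ := by
  ext i j
  simp only [comp, Matrix.of_apply, Matrix.map_apply, coeff_map]
  split_ifs <;> simp

/-- The Hermite matrix commutes with ring homomorphisms. -/
theorem herm_map {A : Type u} {B : Type v} [CommRing A] [CommRing B] (φ : A →+* B) (n : ℕ)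
    (f : A[X]) : herm n (f.map φ) = (herm n f).map φ := by
  ext i j
  simp only [herm, Matrix.of_apply, Matrix.map_apply, comp_map]
  have h : ∀ k : ℕ, ((comp n f).map φ) ^ k = ((comp n f) ^ k).map φ := by
    intro k
    have := (map_pow (RingHom.mapMatrix φ (m := Fin n)) (comp n f) k).symm
    simpa [RingHom.mapMatrix_apply] using this
  rw [h]
  simp [Matrix.trace]

/-- The number of positive entries (nonzero squares). -/
noncomputable def npos {A : Type u} [CommRing A] {n : ℕ} (d : Fin n → A) : ℕ := by
  classical exact (Finset.univ.filter (fun i => d i ≠ 0 ∧ IsSquare (d i))).card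

end Pool.Agent.Helper70.RC
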